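import Pool.Agent.Q23.RC.Final

/-!
# Three-dimensional Poincare duality pairs with an amenable peripheral subgroup: no property (T)

`PDPair3 G` (`Pool/Agent/Q23/RC/Defs.lean`) is a Poincare duality pair `(G; H_0, ..., H_(c-1))` of
dimension three over the field of complex numbers, given by the matrices of a resolution of the
trivial module; `G` may have torsion. If `G` is hyperbolic relative to virtually-`ℤ²` subgroups `H_b`
and its Bowditch boundary is a `2`-sphere, then `G` with the subgroups `H_b` is such a pair (over the
rational numbers), and the groups `H_b` are infinite and amenable.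

The definitions of the representation theory are in `Pool/Agent/Q169/PT/Pub.lean`: `URep` (unitary
representations), `IsCocycle`, `WeaklyRegular` (weakly contained in the left regular
representation), `PropertyT`, `RelativeT`, `Amenable`.
-/

set_option autoImplicit false

namespace Pool.Agent.Results.MP_04c03c_gt.PairsWithoutPropertyT

open Pool.Agent.Q23.RC (PDPair3)
open Pool.Agent.Q169.PT.Pub (URep IsCocycle WeaklyRegular PropertyT RelativeT Amenable)

/-- Let `(G; H_0, ..., H_(c-1))` be a Poincare duality pair of dimension three over `ℂ`, and let some
`H_a` be amenable.

1. `G` does not have Kazhdan's property (T).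
2. `(G, N)` does not have the relative property (T), if `N` is a nonamenable normal subgroup.
3. There are a unitary representation `π` which is weakly contained in the regular representation
and a cocycle `b` for `π` which is not a coboundary and which is unbounded on every nonamenable
normal subgroup of `G`. -/
theorem result {G : Type} [Group G] (P : PDPair3 G) (a : Fin P.c) (ha : Amenable (P.H a)) :
    ¬ PropertyT G ∧
    (∀ N : Subgroup G, N.Normal → ¬ Amenable N → ¬ RelativeT G N) ∧
    ∃ (H : Type) (_ : NormedAddCommGroup H) (_ : InnerProductSpace ℂ H) (_ : CompleteSpace H)
      (π : URep G H) (b : G → H), WeaklyRegular π ∧ IsCocycle π b ∧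
        (∀ w : H, ∃ g : G, b g ≠ π.act g w - w) ∧
        ∀ N : Subgroup G, N.Normal → ¬ Amenable N → ∀ C : ℝ, ∃ g ∈ N, C < ‖b g‖ :=
  Pool.Agent.Q23.RC.final P a ha

end Pool.Agent.Results.MP_04c03c_gt.PairsWithoutPropertyT
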